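import Pool.Agent.P.MP_ad771b_al.Lemmas

set_option autoImplicit false

namespace Pool.Agent.Results.MP_ad771b_al.Counterexample

open MvPolynomial Filter Topology

attribute [local instance] MvPolynomial.gradedAlgebra

variable {K : Type*} [Field K] {n : ℕ}

/-- The initial degree `α(I)`: least degree of a nonzero homogeneous element of `I`. -/
noncomputable def initDeg (I : Ideal (MvPolynomial (Fin n) K)) : ℕ :=
  sInf {d | ∃ f ∈ I, f ≠ 0 ∧ f.IsHomogeneous d}

/-- The local v-number `v_p(I)`: least degree of a homogeneous `f` with `(I : f) = p`. -/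
noncomputable def vLocal (p I : Ideal (MvPolynomial (Fin n) K)) : ℕ :=
  sInf {d | ∃ f : MvPolynomial (Fin n) K, f.IsHomogeneous d ∧ I.colon {f} = p}

/-- The stable primes: associated primes of `S / I ^ k` for all large `k`. -/
def assInf (I : Ideal (MvPolynomial (Fin n) K)) : Set (Ideal (MvPolynomial (Fin n) K)) :=
  {p | ∀ᶠ k : ℕ in atTop,
    p ∈ associatedPrimes (MvPolynomial (Fin n) K) (MvPolynomial (Fin n) K ⧸ I ^ k)}

/-- The maximal stable primes. -/
def maxInf (I : Ideal (MvPolynomial (Fin n) K)) : Set (Ideal (MvPolynomial (Fin n) K)) :=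
  {p | Maximal (fun q => q ∈ assInf I) p}

open Pool.Agent.P.MP_ad771b_al in
theorem result (K : Type*) [Field K] :
    ∃ I p : Ideal (MvPolynomial (Fin 4) K),
      I = Ideal.span {X 0 * X 1, X 0 * X 3 ^ 2, X 1 * X 2 ^ 2} ∧ p = Ideal.span {X 0, X 1} ∧
      I ≠ ⊥ ∧ I ≠ ⊤ ∧ I.IsHomogeneous (homogeneousSubmodule (Fin 4) K) ∧ p ∈ maxInf I ∧
      initDeg I = 2 ∧ (∀ k : ℕ, 1 ≤ k → vLocal p (I ^ k) = 3 * k + 1) ∧
      Tendsto (fun k : ℕ => (vLocal p (I ^ k) : ℝ) / k) atTop (𝓝 3) := by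
  have hv : ∀ k : ℕ, 1 ≤ k → vLocal (exP K) (exI K ^ k) = 3 * k + 1 := by
    intro k hk
    obtain ⟨k, rfl⟩ := Nat.exists_eq_add_of_le' hk
    exact v_eq k
  refine ⟨exI K, exP K, rfl, rfl, ?_, ?_, ?_, ⟨?_, ?_⟩, alpha_eq, hv, ?_⟩
  · intro h
    have : (X 0 * X 1 : MvPolynomial (Fin 4) K) ∈ exI K := Ideal.subset_span (by simp)
    rw [h, Ideal.mem_bot] at this
    simp at this
  · rw [Ne, Ideal.eq_top_iff_one, ← pow_one (exI K), mem_pow_iff]
    intro h
    have := h 0 (by simp)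
    simp [cnd] at this
  · apply Ideal.homogeneous_span
    rintro _ (rfl | rfl | rfl)
    · exact ⟨_, (isHomogeneous_X K 0).mul (isHomogeneous_X K 1)⟩
    · exact ⟨_, (isHomogeneous_X K 0).mul ((isHomogeneous_X K 3).pow 2)⟩
    · exact ⟨_, (isHomogeneous_X K 1).mul ((isHomogeneous_X K 2).pow 2)⟩
  · refine eventually_atTop.2 ⟨1, fun k hk => ?_⟩
    obtain ⟨k, rfl⟩ := Nat.exists_eq_add_of_le' hk
    exact (mem_ass_iff _ _).2 ⟨P_prime, _, (colon_wit k).symm⟩
  · intro q hq hle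
    obtain ⟨k, hk⟩ := Filter.Eventually.exists hq
    obtain ⟨hq', f, rfl⟩ := (mem_ass_iff _ _).1 hk
    exact colon_le (colon_facts hq'.ne_top hle).2
  · have h : Tendsto (fun k : ℕ => (3 : ℝ) + 1 / (k : ℝ)) atTop (𝓝 (3 + 0)) :=
      tendsto_const_nhds.add tendsto_one_div_atTop_nhds_zero_nat
    rw [add_zero] at h
    refine h.congr' (eventually_atTop.2 ⟨1, fun k hk => ?_⟩)
    have : (k : ℝ) ≠ 0 := by positivity
    simp only [hv k hk]
    push_cast
    field_simp

end Pool.Agent.Results.MP_ad771b_al.Counterexample
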