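import Pool.Agent.P.MP_ad771b_al.H.Glue
import Pool.Agent.P.MP_ad771b_al.H.BGen
import Pool.Agent.P.MP_ad771b_al.H.BPt
import Pool.Agent.P.MP_ad771b_al.H.BCnt
import Pool.Agent.P.MP_ad771b_al.H.BStr
import Pool.Agent.P.MP_ad771b_al.H.BEx

set_option autoImplicit false

namespace Pool.Agent.Results.MP_ad771b_al.Radical

open MvPolynomial Filter Topology Pool.Agent.P.MP_ad771b_al.H

attribute [local instance] MvPolynomial.gradedAlgebra

theorem result (K : Type*) [Field K] [IsAlgClosed K] (n : ℕ) :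
    (∀ I p : Ideal (MvPolynomial (Fin n) K), I ≠ ⊥ → I ≠ ⊤ →
      I.IsHomogeneous (homogeneousSubmodule (Fin n) K) → I.IsRadical → p ∈ maxInf I →
      Tendsto (fun k : ℕ => (vLocal p (I ^ k) : ℝ) / k) atTop (𝓝 (initDeg I))) ↔ n ≤ 3 := by
  have hPT := p_PT K
  have hVEC := p_VEC K
  have hDIM := p_DIM K
  have hJ0 := p_J0 K
  have hJ1 := p_J1 K hDIM hJ0
  have hJ2 := p_J2 K hDIM hPT
  have hCI := p_CI K hDIM
  have hBEZ := p_BEZ K hDIM hCI hJ1 hJ2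
  have hX := p_X K hDIM hJ1 (p_STEP K hJ0 hBEZ (p_NEW K hPT hVEC))
  exact radical_of (p_HW K) (p_GCD K) (p_GMUL K) (p_N2 K)
    (p_P3 K (p_STR K hPT hVEC) (p_SAT K hPT) (p_SQF K) (p_VB K) hBEZ (p_NUM K hJ1 hX)
      (p_EQ K hCI hJ2 (p_KOS K)) (p_KOS K))
    (p_EXR K) (p_EXT K (p_EXB K (p_EXA K)) (p_EXC K (p_EXA K))) n

end Pool.Agent.Results.MP_ad771b_al.Radical
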