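import Pool.Agent.P.MP_ad771b_al.H.Glue
import Pool.Agent.P.MP_ad771b_al.H.BGen
import Pool.Agent.P.MP_ad771b_al.H.BRng

set_option autoImplicit false

namespace Pool.Agent.Results.MP_ad771b_al.Range

open MvPolynomial Filter Topology Pool.Agent.P.MP_ad771b_al.H

attribute [local instance] MvPolynomial.gradedAlgebra

theorem result (K : Type*) [Field K] (n h α a : ℕ) :
    (∃ I p : Ideal (MvPolynomial (Fin n) K), I ≠ ⊥ ∧ I ≠ ⊤ ∧
      I.IsHomogeneous (homogeneousSubmodule (Fin n) K) ∧ p ∈ maxInf I ∧ p.height = h ∧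
      initDeg I = α ∧ Tendsto (fun k : ℕ => (vLocal p (I ^ k) : ℝ) / k) atTop (𝓝 a)) ↔
    1 ≤ h ∧ h ≤ n ∧ 1 ≤ α ∧ (a = α ∨ (3 ≤ n ∧ 2 ≤ h ∧ 2 ≤ α ∧ α < a)) :=
  range_of (p_HW K) (p_LIN K) (p_GCD K) (p_GMUL K) (p_N2 K) (p_RA K) (p_RB K) n h α a

end Pool.Agent.Results.MP_ad771b_al.Range
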